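import Pool.Agent.H919R4.ZS.Deriv

/-!
Finite free resolutions over an integral group ring: acyclicity after a change of rings does not
depend on the resolution and is inherited by further changes of rings.
-/

set_option autoImplicit false
set_option linter.unusedSectionVars false

open scoped Matrix

namespace Pool.Agent.TH38.ZT

open Pool.Agent.H919R4.ZS

theorem dep_seq {α : ℕ → Type*} (Q : ∀ i, α i → α (i + 1) → Prop) (a0 : α 0)
    (h : ∀ i a, ∃ b, Q i a b) : ∃ f : ∀ i, α i, f 0 = a0 ∧ ∀ i, Q i (f i) (f (i + 1)) :=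
  ⟨fun i => Nat.rec a0 (fun i a => (h i a).choose) i, rfl, fun i => (h i _).choose_spec⟩

universe u

variable {G : Type u} [Group G] {S : Type*} [Ring S] {T : Type*} [Ring T]

/-- the complex `S ⊗ X` is exact in degree `i` -/
def ExAt (X : FinRes G) (φ : MonoidAlgebra ℤ G →+* S) : ℕ → Prop
  | 0 => ∀ x : Fin (X.n 0) → S, ∃ y, y ᵥ* (X.d 0).map φ = x
  | i + 1 => ∀ x : Fin (X.n (i + 1)) → S, x ᵥ* (X.d i).map φ = 0 →
      ∃ y, y ᵥ* (X.d (i + 1)).map φ = x

theorem exAt_iff (X : FinRes G) (φ : MonoidAlgebra ℤ G →+* S) (i : ℕ) :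
    ExAt X φ i ↔ Subsingleton (X.homology φ i) := by
  constructor
  · intro h
    rw [Submodule.Quotient.subsingleton_iff, eq_top_iff]
    rintro ⟨x, hx⟩ -
    cases i with
    | zero =>
      obtain ⟨y, hy⟩ := h x
      exact ⟨y, hy⟩
    | succ i =>
      obtain ⟨y, hy⟩ := h x hx
      exact ⟨y, hy⟩
  · intro h
    cases i with
    | zero => exact fun x => exact_of_subsingleton X φ 0 h x trivial
    | succ i => exact fun x hx => exact_of_subsingleton X φ (i + 1) h x hx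

lemma dd (X : FinRes G) (φ : MonoidAlgebra ℤ G →+* S) (i : ℕ) :
    (X.d (i + 1)).map φ * (X.d i).map φ = 0 := by
  rw [← Matrix.map_mul, d_mul_d]; ext; simp

lemma rows_succ (X : FinRes G) (φ : MonoidAlgebra ℤ G →+* S) (i : ℕ) (h : ExAt X φ (i + 1)) {a : ℕ}
    (M : Matrix (Fin a) (Fin (X.n (i + 1))) S) (hM : M * (X.d i).map φ = 0) :
    ∃ s : Matrix (Fin a) (Fin (X.n (i + 1 + 1))) S, s * (X.d (i + 1)).map φ = M := by
  refine exists_rows _ _ fun k => h (M k) ?_
  rw [← Matrix.mul_apply_eq_vecMul, hM]; rfl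

/-- a complex acyclic in degrees up to `p` has a contraction there -/
theorem contraction' (X : FinRes G) (φ : MonoidAlgebra ℤ G →+* S) (p : ℕ)
    (h : ∀ i ≤ p, ExAt X φ i) :
    ∃ s : ∀ i, Matrix (Fin (X.n i)) (Fin (X.n (i + 1))) S,
      s 0 * (X.d 0).map φ = 1 ∧
      ∀ i, i + 1 ≤ p → (X.d i).map φ * s i + s (i + 1) * (X.d (i + 1)).map φ = 1 := by
  obtain ⟨s0, hs0⟩ := exists_rows ((X.d 0).map φ) (1 : Matrix (Fin (X.n 0)) (Fin (X.n 0)) S)
    (fun i => h 0 (Nat.zero_le _) _)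
  obtain ⟨f, hf0, hf⟩ := dep_seq (α := fun i => {s : Matrix (Fin (X.n i)) (Fin (X.n (i + 1))) S //
      i ≤ p → (X.d i).map φ * s * (X.d i).map φ = (X.d i).map φ})
    (fun i s s' => i + 1 ≤ p → (X.d i).map φ * s.1 + s'.1 * (X.d (i + 1)).map φ = 1)
    ⟨s0, fun _ => by rw [Matrix.mul_assoc, hs0, Matrix.mul_one]⟩ (by
      rintro i ⟨s, hs⟩
      by_cases hi : i + 1 ≤ p
      · obtain ⟨s', hs'⟩ := rows_succ X φ i (h (i + 1) hi) (1 - (X.d i).map φ * s) (by
          rw [Matrix.sub_mul, Matrix.one_mul, hs (by omega), sub_self])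
        refine ⟨⟨s', fun _ => ?_⟩, fun _ => ?_⟩
        · rw [Matrix.mul_assoc, hs', Matrix.mul_sub, Matrix.mul_one, ← Matrix.mul_assoc, dd,
            Matrix.zero_mul, sub_zero]
        · change (X.d i).map φ * s + s' * (X.d (i + 1)).map φ = 1
          rw [hs', add_sub_cancel]
      · exact ⟨⟨0, fun h => absurd h hi⟩, fun h => absurd h hi⟩)
  refine ⟨fun i => (f i).1, ?_, hf⟩
  change (f 0).1 * (X.d 0).map φ = 1
  rw [hf0]
  exact hs0

lemma map_one_mat (ψ : S →+* T) {a : ℕ} :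
    (1 : Matrix (Fin a) (Fin a) S).map ψ = 1 := Pool.Agent.H919R4.ZS.map_one' ψ

/-- change of rings -/
theorem ex_comp (X : FinRes G) (φ : MonoidAlgebra ℤ G →+* S) (ψ : S →+* T) (p : ℕ)
    (h : ∀ i ≤ p, ExAt X φ i) : ∀ i ≤ p, ExAt X (ψ.comp φ) i := by
  obtain ⟨s, hs0, hs⟩ := contraction' X φ p h
  have key : ∀ i, ((X.d i).map φ).map ψ = (X.d i).map (ψ.comp φ) := fun i => rfl
  intro i hi
  cases i with
  | zero =>
    refine fun x => ⟨x ᵥ* (s 0).map ψ, ?_⟩
    rw [Matrix.vecMul_vecMul, ← key, ← Matrix.map_mul, hs0, map_one_mat, Matrix.vecMul_one]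
  | succ i =>
    refine fun x hx => ⟨x ᵥ* (s (i + 1)).map ψ, ?_⟩
    have h1 : (X.d i).map (ψ.comp φ) * (s i).map ψ +
        (s (i + 1)).map ψ * (X.d (i + 1)).map (ψ.comp φ) = 1 := by
      rw [← key, ← key, ← Matrix.map_mul, ← Matrix.map_mul, ← Matrix.map_add _ (map_add _), hs i hi,
        map_one_mat]
    rw [Matrix.vecMul_vecMul]
    calc x ᵥ* ((s (i + 1)).map ψ * (X.d (i + 1)).map (ψ.comp φ))
        = x ᵥ* ((X.d i).map (ψ.comp φ) * (s i).map ψ) +
          x ᵥ* ((s (i + 1)).map ψ * (X.d (i + 1)).map (ψ.comp φ)) := by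
          rw [← Matrix.vecMul_vecMul x ((X.d i).map (ψ.comp φ)), hx, Matrix.zero_vecMul, zero_add]
      _ = x := by rw [← Matrix.vecMul_add, h1, Matrix.vecMul_one]

/-! ### chain maps -/

lemma zrows_zero (X : FinRes G) {a : ℕ} (M : Matrix (Fin a) (Fin (X.n 0)) (MonoidAlgebra ℤ G))
    (hM : ∀ k, eps X (M k) = 0) :
    ∃ s : Matrix (Fin a) (Fin (X.n (0 + 1))) (MonoidAlgebra ℤ G), s * X.d 0 = M :=
  exists_rows _ _ fun k => (X.exact_zero (M k)).1 (hM k)

lemma zrows_succ (X : FinRes G) (i : ℕ) {a : ℕ}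
    (M : Matrix (Fin a) (Fin (X.n (i + 1))) (MonoidAlgebra ℤ G)) (hM : M * X.d i = 0) :
    ∃ s : Matrix (Fin a) (Fin (X.n (i + 1 + 1))) (MonoidAlgebra ℤ G), s * X.d (i + 1) = M := by
  refine exists_rows _ _ fun k => (X.exact_succ i (M k)).1 ?_
  rw [← Matrix.mul_apply_eq_vecMul, hM]; rfl

lemma eps_sum (X : FinRes G) {ι : Type*} (s : Finset ι)
    (f : ι → Fin (X.n 0) → MonoidAlgebra ℤ G) : eps X (∑ i ∈ s, f i) = ∑ i ∈ s, eps X (f i) := by
  classical
  induction s using Finset.induction_on with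
  | empty => simp [eps]
  | insert a s ha ih => rw [Finset.sum_insert ha, Finset.sum_insert ha, eps_add, ih]

lemma eps_vecMul (X : FinRes G) {a : ℕ} (x : Fin a → MonoidAlgebra ℤ G)
    (M : Matrix (Fin a) (Fin (X.n 0)) (MonoidAlgebra ℤ G)) :
    eps X (x ᵥ* M) = ∑ k, augm G (x k) * eps X (M k) := by
  have h : x ᵥ* M = ∑ k, x k • M k := by
    funext j
    simp [Matrix.vecMul, dotProduct, Finset.sum_apply]
  rw [h, eps_sum]
  exact Finset.sum_congr rfl fun k _ => eps_smul X _ _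

/-- the condition used to continue a chain map -/
def Good (X X' : FinRes G) : ∀ i, Matrix (Fin (X.n i)) (Fin (X'.n i)) (MonoidAlgebra ℤ G) → Prop
  | 0 => fun F => ∀ k, eps X' (F k) = X.aug k
  | i + 1 => fun F => X.d (i + 1) * F * X'.d i = 0

/-- chain maps over the identity of `ℤ` -/
theorem exists_chain_map (X X' : FinRes G) :
    ∃ F : ∀ i, Matrix (Fin (X.n i)) (Fin (X'.n i)) (MonoidAlgebra ℤ G),
      (∀ k, eps X' (F 0 k) = X.aug k) ∧ ∀ i, X.d i * F i = F (i + 1) * X'.d i := by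
  obtain ⟨x0, hx0⟩ := X'.surj
  change eps X' x0 = 1 at hx0
  obtain ⟨f, hf0, hf⟩ := dep_seq
    (α := fun i => {F : Matrix (Fin (X.n i)) (Fin (X'.n i)) (MonoidAlgebra ℤ G) // Good X X' i F})
    (fun i F F' => X.d i * F.1 = F'.1 * X'.d i)
    ⟨fun k => X.aug k • x0, fun k => by
      rw [eps_zsmul, hx0, mul_one]⟩ (by
      rintro i ⟨F, hF⟩
      obtain ⟨F', hF'⟩ : ∃ s : Matrix (Fin (X.n (i + 1))) (Fin (X'.n (i + 1))) (MonoidAlgebra ℤ G),
          s * X'.d i = X.d i * F := by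
        cases i with
        | zero =>
          refine zrows_zero X' _ fun k => ?_
          rw [Matrix.mul_apply_eq_vecMul, eps_vecMul]
          have h1 : eps X (X.d 0 k) = 0 := by
            have := eps_d X (Pi.single k 1)
            rwa [Matrix.single_one_vecMul] at this
          rw [← h1]
          exact Finset.sum_congr rfl fun j _ => by rw [hF j]
        | succ i => exact zrows_succ X' i _ hF
      refine ⟨⟨F', ?_⟩, hF'.symm⟩
      change X.d (i + 1) * F' * X'.d i = 0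
      rw [Matrix.mul_assoc, hF', ← Matrix.mul_assoc, d_mul_d, Matrix.zero_mul])
  refine ⟨fun i => (f i).1, ?_, hf⟩
  exact (f 0).2

/-- a chain endomorphism over the identity of `ℤ` is homotopic to the identity -/
theorem exists_homotopy (X : FinRes G)
    (P : ∀ i, Matrix (Fin (X.n i)) (Fin (X.n i)) (MonoidAlgebra ℤ G))
    (hP0 : ∀ k, eps X (P 0 k) = X.aug k) (hP : ∀ i, X.d i * P i = P (i + 1) * X.d i) :
    ∃ h : ∀ i, Matrix (Fin (X.n i)) (Fin (X.n (i + 1))) (MonoidAlgebra ℤ G),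
      P 0 - 1 = h 0 * X.d 0 ∧ ∀ i, P (i + 1) - 1 = X.d i * h i + h (i + 1) * X.d (i + 1) := by
  obtain ⟨h0, hh0⟩ := zrows_zero X (P 0 - 1) (fun k => by
    have h1 : (P 0 - 1 : Matrix (Fin (X.n 0)) (Fin (X.n 0)) (MonoidAlgebra ℤ G)) k =
        P 0 k - Pi.single k 1 := by
      funext j
      rw [Matrix.sub_apply, Pi.sub_apply, Matrix.one_apply, Pi.single_apply]
      by_cases hjk : k = j
      · subst hjk; simp
      · rw [if_neg hjk, if_neg (fun e => hjk e.symm)]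
    rw [h1, eps_sub, eps_single, hP0, sub_self])
  obtain ⟨f, hf0, hf⟩ := dep_seq
    (α := fun i => {h : Matrix (Fin (X.n i)) (Fin (X.n (i + 1))) (MonoidAlgebra ℤ G) //
      X.d i * (P i - 1 - h * X.d i) = 0})
    (fun i h h' => P (i + 1) - 1 = X.d i * h.1 + h'.1 * X.d (i + 1))
    ⟨h0, by rw [hh0, sub_self, Matrix.mul_zero]⟩ (by
      rintro i ⟨h, hh⟩
      obtain ⟨h', hh'⟩ := zrows_succ X i (P (i + 1) - 1 - X.d i * h) (by
        rw [Matrix.sub_mul, Matrix.sub_mul, ← hP, Matrix.one_mul, Matrix.mul_assoc]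
        rw [Matrix.mul_sub, Matrix.mul_sub, Matrix.mul_one] at hh
        exact hh)
      refine ⟨⟨h', ?_⟩, ?_⟩
      · rw [hh', sub_sub_cancel, ← Matrix.mul_assoc, d_mul_d, Matrix.zero_mul]
      · change P (i + 1) - 1 = X.d i * h + h' * X.d (i + 1)
        rw [hh', add_sub_cancel])
  refine ⟨fun i => (f i).1, ?_, hf⟩
  change P 0 - 1 = (f 0).1 * X.d 0
  rw [hf0]
  exact hh0.symm

/-- acyclicity in one degree does not depend on the resolution -/
theorem ex_indep (X X' : FinRes G) (φ : MonoidAlgebra ℤ G →+* S) (i : ℕ) (h : ExAt X φ i) :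
    ExAt X' φ i := by
  obtain ⟨K, hK0, hK⟩ := exists_chain_map X' X
  obtain ⟨F, hF0, hF⟩ := exists_chain_map X X'
  obtain ⟨H, hH0, hH⟩ := exists_homotopy X' (fun i => K i * F i) (by
      intro k
      rw [Matrix.mul_apply_eq_vecMul, eps_vecMul, ← hK0 k]
      exact Finset.sum_congr rfl fun j _ => by rw [hF0 j]) (by
      intro i
      rw [← Matrix.mul_assoc, hK, Matrix.mul_assoc, hF, ← Matrix.mul_assoc])
  have m : ∀ {a b c : ℕ} (M : Matrix (Fin a) (Fin b) (MonoidAlgebra ℤ G))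
      (N : Matrix (Fin b) (Fin c) (MonoidAlgebra ℤ G)), (M * N).map φ = M.map φ * N.map φ :=
    fun M N => Matrix.map_mul
  cases i with
  | zero =>
    intro x
    obtain ⟨y, hy⟩ := h (x ᵥ* (K 0).map φ)
    refine ⟨y ᵥ* (F 1).map φ - x ᵥ* (H 0).map φ, ?_⟩
    have e1 : (K 0).map φ * (F 0).map φ - 1 = (H 0).map φ * (X'.d 0).map φ := by
      have := congrArg (fun M => Matrix.map M φ) hH0
      rw [Matrix.map_sub _ (map_sub φ), map_one_mat, m, m] at this
      exact this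
    have e2 : (X.d 0).map φ * (F 0).map φ = (F 1).map φ * (X'.d 0).map φ := by
      rw [← m, ← m, hF]
    rw [Matrix.sub_vecMul, Matrix.vecMul_vecMul, Matrix.vecMul_vecMul, ← e1, ← e2,
      ← Matrix.vecMul_vecMul, hy, Matrix.vecMul_sub, Matrix.vecMul_vecMul, Matrix.vecMul_one]
    abel
  | succ i =>
    intro x hx
    have e0 : (X'.d i).map φ * (K i).map φ = (K (i + 1)).map φ * (X.d i).map φ := by
      rw [← m, ← m, hK]
    obtain ⟨y, hy⟩ := h (x ᵥ* (K (i + 1)).map φ) (by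
      rw [Matrix.vecMul_vecMul, ← e0, ← Matrix.vecMul_vecMul, hx, Matrix.zero_vecMul])
    refine ⟨y ᵥ* (F (i + 2)).map φ - x ᵥ* (H (i + 1)).map φ, ?_⟩
    have e1 : (K (i + 1)).map φ * (F (i + 1)).map φ - 1 =
        (X'.d i).map φ * (H i).map φ + (H (i + 1)).map φ * (X'.d (i + 1)).map φ := by
      have := congrArg (fun M => Matrix.map M φ) (hH i)
      rw [Matrix.map_sub _ (map_sub φ), map_one_mat, Matrix.map_add _ (map_add φ), m, m, m] at this
      exact this
    have e2 : (X.d (i + 1)).map φ * (F (i + 1)).map φ = (F (i + 2)).map φ * (X'.d (i + 1)).map φ := by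
      rw [← m, ← m, hF]
    have e3 : x ᵥ* ((H (i + 1)).map φ * (X'.d (i + 1)).map φ) =
        x ᵥ* ((K (i + 1)).map φ * (F (i + 1)).map φ) - x := by
      have h4 : x ᵥ* ((K (i + 1)).map φ * (F (i + 1)).map φ - 1) =
          x ᵥ* ((X'.d i).map φ * (H i).map φ + (H (i + 1)).map φ * (X'.d (i + 1)).map φ) := by
        rw [e1]
      rw [Matrix.vecMul_sub, Matrix.vecMul_one, Matrix.vecMul_add,
        ← Matrix.vecMul_vecMul x ((X'.d i).map φ), hx, Matrix.zero_vecMul, zero_add] at h4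
      exact h4.symm
    rw [Matrix.sub_vecMul, Matrix.vecMul_vecMul, Matrix.vecMul_vecMul, e3, ← e2,
      ← Matrix.vecMul_vecMul, hy, Matrix.vecMul_vecMul]
    abel

end Pool.Agent.TH38.ZT
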